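import Mathlib
import Pool.Agent.Q64.L.InstC
import Pool.Agent.Q306.FG.BSThms

/-!
# The vanishing of motivic cohomology in degrees at most zero, for the products of varieties over
finite fields with the abelian varieties of almost all slope types of all CM fields

Let `K i` (`i` in a finite set) be CM fields of degree `2 g i`. Nothing is assumed about their
Galois groups. They are pairwise independent: for `i ≠ k` and all complex embeddings `φ` of `K i`
and `ψ` of `K k` some automorphism of `ℂ` is the identity on `φ (K i)` and the complex conjugation
on `ψ (K k)` (this is no condition if there is only one field). We fix an isomorphism `ν` of the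
algebraic closure of `ℚ_p` with `ℂ`; it defines a `p`-adic valuation of `ℂ`, with the value one at
`p`. Let `M i` be a function with nonzero integral values, all of which divide `n i`, on the
complex embeddings of `K i`, invariant under complex conjugation. A CM type `Φ i` of `K i` (a
choice of one element out of each complex conjugate pair of embeddings; there are `2 ^ (g i)`
types), `M i` and a real number `κ ≠ 0` prescribe the slopes `(a + κ M) / 2` (at the embeddings in
`Φ i`) and `(a - κ M) / 2` (outside of `Φ i`) of a Weil number for `p ^ a` in `K i` (`HasType`).
The case `M = 1`, `κ = a` is the case of ordinary abelian varieties; the assumption on `M` says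
that `a / 2` is not a slope.

There are `2 ^ (∑ i, g i)` families of CM types `Φ i` of the fields `K i`. A family is exceptional
(`exceptionalFamilies ν K M`) if the following statement (`Holds`) is false for it. Let `π i` be
Weil numbers for `q = p ^ a` that generate the fields `K i` and have the slope types `Φ i`, `M i`,
and let `f i` be monic polynomials whose complex roots are conjugates of `π i` (`IsPolyOf`), for
instance the characteristic polynomials of Frobenius of the abelian varieties in the isogeny
classes of the `π i` over the field with `q` elements. Let `A` be an abelian variety over the
field with `Q = q ^ s` elements which is isogenous to a product of powers of abelian varieties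
coming from the field with `q` elements, with characteristic polynomials `f i`, and let `Z` be
**any** smooth projective variety over the field with `Q` elements such that

* the eigenvalues `ρ` of Frobenius on the `ℓ`-adic cohomology of `Z` and their conjugates are
  unrelated to the fields `K i` (`UnrelatedTo`): a function `n` on the complex embeddings of `K i`
  with `n (conj φ) = - n φ` which is invariant under all automorphisms of `ℂ` that fix a power of
  `ρ` is zero. This is so if for each embedding `ψ` of `K i` some automorphism which fixes a power
  of `ρ` is the complex conjugation on `ψ (K i)`: for instance, if a power of `ρ` lies in a field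
  linearly disjoint from the normal closures of the `K i`, or in a totally real field. It is also
  so if the degree of `ρ` is less than twice the dimension of each nonzero space of functions `n`
  stable under all automorphisms of `ℂ`;
* the motive of `Z` is finite-dimensional in the sense of Kimura and O'Sullivan. This is known for
  all varieties dominated by products of curves. It implies that the Frobenius endomorphism of `Z`
  satisfies, as a correspondence modulo rational equivalence, a polynomial equation with the same
  roots as on the cohomology; only this is used.

**For all `m ≥ 1` and `a ≤ 0` the groups `H^i(A × Z, ℤ(m))` vanish for all `i ≤ a` if and only if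
for all `k` with `0 ≤ k ≤ dim A`, `k < m`, the groups `H^i(Z, ℤ(m - k))` vanish for all `i ≤ a - 2
k`** (`BSReduces`). For `a = 0` the first statement is question Q1 for the weight `m` and the
scheme `A × Z`: it says that the hypercohomology of `ℤ(m)` on `A × Z` vanishes in the degrees in
which the complex should be acyclic. So question Q1 in weight `m` for `A × Z` follows from (and
contains) question Q1 in weight `m` for `Z`, together with the vanishing for `Z` in the lower
weights `m - k` and only in the degrees `i ≤ - 2 k`; question Q1 for `A × Z` and all weights is
equivalent to question Q1 for `Z` and all weights. No case of the conjectures of Tate, Beilinson,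
Soulé and Parshin is assumed.

What is used of `A` are known theorems (`IsAbelian`): `H(A)` is generated by `H^1`, Frobenius is
diagonalizable on `H^1` (Weil), the theorem of Tate on divisors, and the nilpotence of
homologically trivial correspondences (Kimura). The motivic cohomology groups `H^i(X, ℚ(m))`, for
`X = Z` and `X = A × Z`, are the groups of bidegree `(i, m)` of a theory which is modelled by
`RelData`, with the formal properties in `IsTheory`: degrees, products with classes on `A`,
push-forward to `Z`, the projection formula, the operation of the correspondences of `A` and of
the Frobenius endomorphism of `Z`. The Frobenius endomorphism of `X` is the multiplication by `Q ^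
m` on `H^i(X, ℚ(m))` (`IsPure`). The groups `H^i(X, ℤ(m))` are modelled by `MotivicData` and
`IsMotivic`: their tensor products with `ℚ` are the groups `H^i(X, ℚ(m))`; they are torsion-free
for `i ≤ 0`, `m ≥ 1` by the theorem of Beilinson-Lichtenbaum (Voevodsky, Rost) and the one of
Geisser and Levine; and the groups of weight zero and of negative weights are known.

The theorem bounds the number of the exceptional families: it is at most `2 ^ (∑ i, g i) * ∑ i, C
* (n i) ^ 2 * (1 + log (2 g i)) ^ 16 * min (N ^ 2 * D ^ (1 / 4) / √g, √g / q)` with an absolute
constant `C`. Here, for `K = K i` and `g = g i`, `N` is the number of the CM subfields of `K`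
(with `K`), `D = D i ≥ 1` is a bound for the degrees of the CM subfields of `K` that are normal
over `ℚ` with a nonabelian Galois group, and `q = q i` is any prime factor of `g` (or `q = 1`). So
the exceptional types are a proportion `O (n ^ 2 * g ^ (-1 / 4) * (log g) ^ 16)` of all types of
all CM fields with a bounded number of CM subfields. Some assumption is necessary: almost all
types of a multiquadratic CM field are degenerate.

Relation to other results. The bound for the number of the degenerate types is the one of
`AllCMFields` (MP_e12fcd_ag), by helper1 and others of this team; helper64 has the theorem for the
rational groups (the conjecture of Parshin, `AllCMTypesTimes`, MP_27fd67_ag). New here are the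
groups with integral coefficients and the weights and degrees of the question (degrees at most `a
- 2 k` in the weight `m - k`).

The proof. Suppose that the product of `ρ` and of some eigenvalues `φ (π i)` of `A`, no two of
them complex conjugate, is a power of `q`, up to a root of unity. For an automorphism `σ` of `ℂ`
the `p`-adic valuations of the images under `σ` give a linear relation between the signed weights
`± M i (σ φ)` whose right side is a function of the valuation of `σ ρ`. It does not change if `σ`
is multiplied by an automorphism `τ` which fixes a power of `ρ`. The difference of the two
relations is homogeneous; if the types are not degenerate it is trivial, so that the differences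
of the exponents of complex conjugate embeddings are invariant under `τ`. So they are zero, as `ρ`
is unrelated to the fields `K i`. It follows that the correspondence on `A` given by the sum of
the products of dual classes of divisor products acts as the identity on the motivic cohomology of
`A × Z`: the Frobenius endomorphism of `A × Z` is the multiplication by `Q ^ j`, so that the
Frobenius endomorphism of `A` satisfies a power of the polynomial reciprocal to that of the
Frobenius endomorphism of `Z`; this polynomial is prime to the one whose value on `H(A)` lies in
the part generated by divisors, and the difference of the two correspondences is nilpotent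
(helper64). So the rational motivic cohomology of `A × Z` is the direct sum of the products of
finitely many products of divisors on `A` with that of `Z`; in the degrees at most zero a group
with integral coefficients is zero if and only if the rational group is zero. (The idea to play
the eigenvalues of Frobenius off against nilpotence is due to Soulé, Geisser and Kahn.)
-/

set_option autoImplicit false

namespace Pool.Agent.Results.MP_e2821c_ag.AllCMTypesTimes

open NumberField Module Pool.Agent.H204R3.CM Pool.Agent.H977R3.CM Pool.Agent.TH170
  Pool.Agent.Y1.KN Pool.Agent.Y1.CT Pool.Agent.Q64.L Pool.Agent.Q306.FG

/-- The statement `BSReduces` holds for all abelian varieties `A` whose Frobenius eigenvalues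
are powers of conjugates of Weil numbers with the slope types `Φ i`, `M i`, and all `Z` unrelated to
the fields `K i`. -/
def Holds {p : ℕ} [Fact p.Prime] (ν : PadicAlgCl p ≃+* ℂ) {I : Type} (K : I → Type)
    [∀ i, Field (K i)] [∀ i, NumberField (K i)] [∀ i, IsCMField (K i)]
    (M : ∀ i, (K i →+* ℂ) → ℤ) (Φ : ∀ i, Set (K i →+* ℂ)) : Prop :=
  ForAllTypes ν K M (fun q f => BSReduces (UnrelatedRoots K) q f) Φ

/-- The exceptional families of CM types. -/
def exceptionalFamilies {p : ℕ} [Fact p.Prime] (ν : PadicAlgCl p ≃+* ℂ) {I : Type} (K : I → Type)
    [∀ i, Field (K i)] [∀ i, NumberField (K i)] [∀ i, IsCMField (K i)]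
    (M : ∀ i, (K i →+* ℂ) → ℤ) : Set (∀ i, Set (K i →+* ℂ)) :=
  {Φ | (∀ i, IsCMType (Φ i)) ∧ ¬ Holds ν K M Φ}

/-- **Question Q1 for `A × Z` in weight `m` is question Q1 for `Z` in weight `m` and the vanishing
for `Z` in the weights `m - k` and degrees `i ≤ - 2 k`**, for the abelian varieties `A` of
almost all slope types of all CM fields and all unrelated `Z`. -/
theorem result :
    ∃ C : ℝ, 0 ≤ C ∧ ∀ (p : ℕ) [Fact p.Prime] (ν : PadicAlgCl p ≃+* ℂ) (I : Type) [Fintype I]
      (K : I → Type) [∀ i, Field (K i)] [∀ i, NumberField (K i)] [∀ i, IsCMField (K i)]
      (M : ∀ i, (K i →+* ℂ) → ℤ) (n g q : I → ℕ) (D : I → ℝ), PairwiseIndep K →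
      (∀ i φ, M i (ComplexEmbedding.conjugate φ) = M i φ) → (∀ i, n i ≠ 0) →
      (∀ i φ, M i φ ∣ (n i : ℤ)) → (∀ i, finrank ℚ (K i) = 2 * g i) →
      (∀ i, q i ∣ g i ∧ (q i = 1 ∨ (q i).Prime)) → (∀ i, 1 ≤ D i) →
      (∀ (i : I) (L : IntermediateField ℚ (K i)), IsCMField L → IsGalois ℚ L →
        ¬ IsAbelianGalois ℚ L → (finrank ℚ L : ℝ) ≤ D i) →
      ((exceptionalFamilies ν K M).ncard : ℝ) ≤
        2 ^ (∑ i, g i) * ∑ i, C * (n i : ℝ) ^ 2 * ((1 + Real.log (2 * g i)) ^ 16 *
          min ((numCMSubfields (K i) : ℝ) ^ 2 * D i ^ (1 / 4 : ℝ) / √(g i)) (√(g i) / q i)) := by
  obtain ⟨C, hC0, hC⟩ := countC
  refine ⟨C, hC0, ?_⟩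
  intro p _ ν I _ K _ _ _ M n g q D hind hM hn hMn hg hq hD hDF
  exact hC p ν I K M n g q D hind hM hn hMn hg hq hD hDF _
    fun Q f hQ hG => bsReduces hQ hG

end Pool.Agent.Results.MP_e2821c_ag.AllCMTypesTimes
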