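import Pool.Agent.Q282.UK.Exact

/-!
# MP_e2821c_ag: the Beilinson-Soule vanishing conjecture and systems of bilinear equations
-/

set_option autoImplicit false

open CategoryTheory Limits AlgebraicGeometry Pool.Agent.Y116.UV Pool.Agent.Q282.UM
  Pool.Agent.Q282.UK

namespace Pool.Agent.Results.MP_e2821c_ag.BilinearSystems

universe v u

/-- Motivic cohomology with rational coefficients of schemes over `k` and of Chow motives over `k`
(effective, contravariant).

* `coh j n X` is `H^n(X, ℚ(j))` for a smooth separated scheme `X` of finite type over `k`;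
* `mot j n` is the functor which takes `M(X)` to `H^n(X, ℚ(j))`, `X` smooth and projective. -/
structure MotivicCohomology (k : Type) [Field k] (C : Type u) [Category.{v} C] where
  coh : ℕ → ℤ → Sch k → ModuleCat.{0} ℚ
  mot : ℕ → ℤ → C ⥤ ModuleCat.{0} ℚ

/-- The properties of motivic cohomology.

* the functors `mot j n` are additive;
* `weight`: every smooth separated `U` has the weight spectral sequence of a smooth compactification;
  in particular there are smooth projective schemes `Y_p`, `p ≥ 0` (`Y_0` is the compactification,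
  and `Y_p` is the disjoint union of the `p`-fold intersections of boundary divisors) such that
  `H^n(U, ℚ(j))` vanishes if `H^{n-p}(Y_p, ℚ(j-p))` vanishes for all `0 ≤ p ≤ j`;
* `projective`: smooth projective schemes;
* `zero`: `ℚ(0)` is `ℚ` in degree zero. -/
structure IsMotivic {k : Type} [Field k] {C : Type u} [Category.{v} C] [Preadditive C]
    (D : Complexes k C) (H : MotivicCohomology k C) : Prop where
  additive : ∀ j n, (H.mot j n).Additive
  weight : ∀ U : Sch k, FT True U → Smooth U.hom → ∃ Y : ℕ → Sch k,
    (∀ p, IsSmoothProjective (Y p)) ∧ ∀ (j : ℕ) (n : ℤ),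
      (∀ p, p ≤ j → IsZero (H.coh (j - p) (n - p) (Y p))) → IsZero (H.coh j n U)
  projective : ∀ X : Sch k, IsSmoothProjective X → ∀ j n,
    Nonempty (H.coh j n X ≅ (H.mot j n).obj (D.M X))
  zero : ∀ X : Sch k, IsSmoothProjective X → ∀ n : ℤ, n ≠ 0 → IsZero (H.coh 0 n X)

/-- `H^n(U, ℚ(j))` vanishes for all smooth separated `U`, all `j ≥ 1` and all `n ≤ 0`. -/
def Vanishing {k : Type} [Field k] {C : Type u} [Category.{v} C] (H : MotivicCohomology k C) :
    Prop :=
  ∀ U : Sch k, FT True U → Smooth U.hom → ∀ (j : ℕ) (n : ℤ), 1 ≤ j → n ≤ 0 →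
    IsZero (H.coh j n U)

/-- For all `j ≥ 1` and all `n ≤ 0` the complex `H^n(K, ℚ(j))` is acyclic. -/
def Acyclic {k : Type} [Field k] {C : Type u} [Category.{v} C] [Preadditive C] {D : Complexes k C}
    {H : MotivicCohomology k C} (hH : IsMotivic D H) (K : HK C) : Prop :=
  ∀ (j : ℕ) (n : ℤ), 1 ≤ j → n ≤ 0 → ZeroK (H.mot j n) (hH.additive j n) K

/-- From smooth projective schemes to smooth schemes. -/
lemma vanishing_iff {k : Type} [Field k] {C : Type u} [Category.{v} C] [Preadditive C]
    {D : Complexes k C} {H : MotivicCohomology k C} (hH : IsMotivic D H) :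
    Vanishing H ↔ ForMotives D fun M => ∀ (j : ℕ) (n : ℤ), 1 ≤ j → n ≤ 0 →
      IsZero ((H.mot j n).obj M) := by
  constructor
  · intro h X hX j n hj hn
    have hf := ft_projective hX
    obtain ⟨e⟩ := hH.projective X hX j n
    exact (h X hf hX.1 j n hj hn).of_iso e.symm
  · intro h U hU hs j n hj hn
    obtain ⟨Y, hY, hw⟩ := hH.weight U hU hs
    refine hw j n fun p hp => ?_
    by_cases h0 : j - p = 0
    · rw [h0]
      exact hH.zero _ (hY p) _ (by omega)
    · obtain ⟨e⟩ := hH.projective (Y p) (hY p) (j - p) (n - p)
      exact (h (Y p) (hY p) (j - p) (n - p) (by omega) (by omega)).of_iso e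

/-- **The Beilinson-Soulé vanishing conjecture and systems of bilinear equations.** Let `C` be the
category of effective Chow motives over `k`, and let `W(X)` be the weight complex of the scheme `X` of
finite type over `k`.

* `H^n(U, ℚ(j)) = 0` for all smooth separated `U` over `k`, all `j ≥ 1` and all `n ≤ 0`, if and only if
  for all `Y ⊂ 𝔸^{a+b}` given by systems of bilinear equations `∑ T i j l x_i y_j = 0` over `k`
  the complexes `H^n(W(Y), ℚ(j))`, `j ≥ 1`, `n ≤ 0`, are acyclic.
* If `k = ℚ` it is enough to consider the systems with coefficients `0` and `1`. -/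
theorem result {C : Type u} [Category.{v} C] [Preadditive C] [HasZeroObject C]
    [HasBinaryBiproducts C] [HasFiniteBiproducts C] :
    (∀ (k : Type) [Field k] (D : Complexes k C) (H : MotivicCohomology k C), IsContravariant D →
      ∀ hH : IsMotivic D H, (Vanishing H ↔ ForSystems D (Acyclic hH))) ∧
    ∀ (D : Complexes ℚ C) (H : MotivicCohomology ℚ C), IsContravariant D →
      ∀ hH : IsMotivic D H, (Vanishing H ↔ ForBinarySystems D (Acyclic hH)) := by
  have h : ∀ {k : Type} [Field k] {D : Complexes k C} {H : MotivicCohomology k C}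
      (hH : IsMotivic D H), IsExtension (fun M : C => ∀ (j : ℕ) (n : ℤ), 1 ≤ j → n ≤ 0 →
        IsZero ((H.mot j n).obj M)) (Acyclic hH) := fun {k _ D H} hH =>
    ext_all fun j => ext_all fun n => ext_all fun _ => ext_all fun _ =>
      ext_zero (H.mot j n) (hH.additive j n)
  exact ⟨fun k _ D H hD hH => (vanishing_iff hH).trans (systems_con hD (h hH)),
    fun D H hD hH => (vanishing_iff hH).trans (binary_con presents_rat hD (h hH))⟩

end Pool.Agent.Results.MP_e2821c_ag.BilinearSystems
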