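import Mathlib
import Pool.Agent.Q64.N.Main
import Pool.Agent.Q306.FG.BSThms

/-!
# The vanishing of motivic cohomology in degrees at most zero, for the products of varieties over
finite fields with abelian varieties: Newton strata

Fix a prime number `p` and a nonempty finite set `κ`. For `i` in `κ` let `g i` be a dimension and
let `sl i j`, `j < g i`, be rational numbers between `0` and `1 / 2` such that the `sl i j` and `1
- sl i j` are the slopes of a symmetric Newton polygon with integral break points (`IsNewton`)
which is not the supersingular one, that is `sl i j < 1 / 2` for some `j`. Let `r` be an integer
smaller than all the `g i`, and let `E` be a number field. By the theorem of Honda and Tate,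
`Stratum g sl p a` is the set of the families of isogeny classes of abelian varieties of
dimensions `g i` over the field with `q = p ^ a` elements with these Newton polygons; it consists
of the families `f i` of the characteristic polynomials of Frobenius.

As `a → ∞`, the number of the families in `Stratum g sl p a` tends to infinity, and **the
proportion of those families for which the following is true tends to one**: for all `N` and `ε >
0` there is an `a₀` such that for `a ≥ a₀` there are at least `N` families, and at most `ε` times
their number are exceptions.

Let `A` be an abelian variety over the field with `Q = q ^ s` elements, `s > 0`, which is
isogenous to a product of powers of abelian varieties coming from the field with `q` elements,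
with characteristic polynomials `f i`, and let `Z` be **any** smooth projective variety over the
field with `Q` elements such that

* the eigenvalues `ρ` of Frobenius on the cohomology of `Z` and their conjugates are in a group of
  rank at most `r` over `E` (`RootsRank`): there are nonzero numbers `u 1, ..., u r` such that
  each `ρ` has a power which is the product of a nonzero element of `E` and of integral powers of
  `u 1, ..., u r`;
* the motive of `Z` is finite-dimensional in the sense of Kimura and O'Sullivan. This is known for
  all varieties dominated by products of curves. It implies that the Frobenius endomorphism of `Z`
  satisfies, as a correspondence modulo rational equivalence, a polynomial equation with the same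
  roots as on the cohomology; only this is used.

**For all `m ≥ 1` and `a ≤ 0` the groups `H^i(A × Z, ℤ(m))` vanish for all `i ≤ a` if and only if
for all `k` with `0 ≤ k ≤ dim A`, `k < m`, the groups `H^i(Z, ℤ(m - k))` vanish for all `i ≤ a - 2
k`** (`BSReduces`). For `a = 0` the first statement is question Q1 for the weight `m` and the
scheme `A × Z`: it says that the hypercohomology of `ℤ(m)` on `A × Z` vanishes in the degrees in
which the complex should be acyclic. So question Q1 in weight `m` for `A × Z` follows from (and
contains) question Q1 in weight `m` for `Z`, together with the vanishing for `Z` in the lower
weights `m - k` and only in the degrees `i ≤ - 2 k`; question Q1 for `A × Z` and all weights is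
equivalent to question Q1 for `Z` and all weights. No case of the conjectures of Tate, Beilinson,
Soulé and Parshin is assumed.

What is used of `A` are known theorems (`IsAbelian`): `H(A)` is generated by `H^1`, Frobenius is
diagonalizable on `H^1` (Weil), the theorem of Tate on divisors, and the nilpotence of
homologically trivial correspondences (Kimura). The motivic cohomology groups `H^i(X, ℚ(m))`, for
`X = Z` and `X = A × Z`, are the groups of bidegree `(i, m)` of a theory which is modelled by
`RelData`, with the formal properties in `IsTheory`: degrees, products with classes on `A`,
push-forward to `Z`, the projection formula, the operation of the correspondences of `A` and of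
the Frobenius endomorphism of `Z`. The Frobenius endomorphism of `X` is the multiplication by `Q ^
m` on `H^i(X, ℚ(m))` (`IsPure`). The groups `H^i(X, ℤ(m))` are modelled by `MotivicData` and
`IsMotivic`: their tensor products with `ℚ` are the groups `H^i(X, ℚ(m))`; they are torsion-free
for `i ≤ 0`, `m ≥ 1` by the theorem of Beilinson-Lichtenbaum (Voevodsky, Rost) and the one of
Geisser and Levine; and the groups of weight zero and of negative weights are known.

For `r = 0` the assumption on the eigenvalues says that they and their conjugates have powers in
`E`. A supersingular abelian variety may always be added to the other factor.

Relation to other results. The count of the families in a stratum is that of helper518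
(`NewtonStrata`, MP_ee618e_ag, where it is applied to the Tate conjecture), in the form of
helper64. Helper64 has the theorem for the rational groups (the conjecture of Parshin,
`NewtonStrata`, MP_27fd67_ag). New here are the groups with integral coefficients and the weights
and degrees of the question (degrees at most `a - 2 k` in the weight `m - k`).

The proof. The elements of the stratum correspond to integral points in a box whose sides tend to
infinity: the coefficients of the trace polynomials, divided by the powers of `p` prescribed by
the Newton polygons (helper518). We apply the sieve only with primes which split completely in the
Galois closure of `E` (Chebotarev, formalized by helper401). So for almost all families the trace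
polynomials are irreducible, and each pair `α`, `q / α` of roots can be exchanged by a Galois
automorphism which fixes all the other roots of all the `f i` and all elements of `E`. A
multiplicative relation between `ρ`, a power of `q` and roots of the `f i`, other than those which
follow from `α (q / α) = q`, would make the `g i > r` numbers `α ^ 2 / q` of one `f i`
multiplicatively dependent modulo `E` and `r` numbers. It follows that the correspondence on `A`
given by the sum of the products of dual classes of divisor products acts as the identity on the
motivic cohomology of `A × Z`: the Frobenius endomorphism of `A × Z` is the multiplication by `Q ^
j`, so that the Frobenius endomorphism of `A` satisfies a power of the polynomial reciprocal to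
that of the Frobenius endomorphism of `Z`; this polynomial is prime to the one whose value on
`H(A)` lies in the part generated by divisors, and the difference of the two correspondences is
nilpotent (helper64). So the rational motivic cohomology of `A × Z` is the direct sum of the
products of finitely many products of divisors on `A` with that of `Z`; in the degrees at most
zero a group with integral coefficients is zero if and only if the rational group is zero. (The
idea to play the eigenvalues of Frobenius off against nilpotence is due to Soulé, Geisser and
Kahn.)
-/

set_option autoImplicit false

namespace Pool.Agent.Results.MP_e2821c_ag.NewtonStrata

open Polynomial Pool.Agent.Q64.N Pool.Agent.Q306.FG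
open Pool.Agent.Q64.L (RootsRank)

/-- **Question Q1 for `A × Z` in weight `m` is question Q1 for `Z` in weight `m` and the vanishing
for `Z` in the weights `m - k` and degrees `i ≤ - 2 k`**, for almost all families of abelian
varieties in each Newton stratum over the fields of characteristic `p`. -/
theorem result {κ : Type} [Fintype κ] [Nonempty κ] (p : ℕ) [Fact p.Prime]
    -- dimensions and Newton polygons
    (g : κ → ℕ) (sl : ∀ i, Fin (g i) → ℚ) (hsl : ∀ i, IsNewton (sl i))
    (hss : ∀ i, ∃ j, sl i j < 1 / 2)
    -- the rank and the number field
    (r : ℕ) (hr : ∀ i, r < g i) (E : IntermediateField ℚ ℂ) [FiniteDimensional ℚ E]
    -- a number of families, a proportion of exceptions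
    (N : ℕ) (ε : ℝ) (hε : 0 < ε) :
    ∃ a₀ : ℕ, ∀ a, a₀ ≤ a →
      (Stratum g sl p a).Finite ∧ N ≤ (Stratum g sl p a).ncard ∧
      ({f ∈ Stratum g sl p a | ¬ BSReduces (RootsRank E r) (p ^ a) f}.ncard : ℝ) ≤
        ε * ((Stratum g sl p a).ncard : ℝ) :=
  strata p g sl hsl hss r hr E (fun a f => BSReduces (RootsRank E r) (p ^ a) f)
    (fun _ _ _ hq hG => bsReduces hq hG) N ε hε

end Pool.Agent.Results.MP_e2821c_ag.NewtonStrata
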