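import Mathlib
import Pool.Agent.Q64.P.Good
import Pool.Agent.Q306.FG.BSThms

/-!
# The vanishing of motivic cohomology in degrees at most zero, for the products of varieties over
finite fields with abelian varieties: small slope deviations

Let `q = p ^ a`, let `F i` (`i` in a finite set) be CM fields and `π i` a Weil number for `q` in
`F i`, and let `f i` be monic polynomials whose complex roots are conjugates of `π i`
(`IsPolyOf`), for instance the characteristic polynomials of Frobenius of the abelian varieties in
the isogeny class of `π i` over the field with `q` elements. We suppose that

* the functions `n` on the complex embeddings of `F i` with `n (conj φ) = - n φ` are an absolutely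
  irreducible representation of the automorphisms of `ℂ` (`OddAbsolutelyIrreducible`), and there
  are no equivariant maps between those of `F i` and `F i'` for `i ≠ i'` (`Unrelated`). This is
  the generic case;
* no `π i` is supersingular (`HasOtherSlope`).

Let `A` be an abelian variety over the field with `Q = q ^ s` elements which is isogenous to a
product of powers of abelian varieties coming from the field with `q` elements, with
characteristic polynomials `f i`, and let `Z` be **any** smooth projective variety over the field
with `Q` elements such that

* the eigenvalues `ρ` of Frobenius on the cohomology of `Z` and their conjugates are good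
  (`GoodRoots`): for each `i`, `ρ` is unrelated to `F i` (`UnrelatedTo`: a function `n` on the
  embeddings of `F i` with `n (conj φ) = - n φ` which is invariant under all automorphisms of `ℂ`
  that fix a power of `ρ` is zero), **or** `d (ρ) < d (π i)`, **or** the weight of `ρ` is even and
  `d (ρ) < d (π i) + d (π i')` for all `i'` (`SmallDeviation`). Here `d (ρ)` is the mean of `(log
  |x| + log |ρ|) ^ 2` over all `p`-adic conjugates `x` of `ρ` (`deviation`), that is `(log q) ^ 2`
  times the mean square deviation of the slopes of `ρ` from half of its weight, and `d (π i) =
  (log q) ^ 2 / 4` if `π i` is ordinary (second part of the theorem);
* the motive of `Z` is finite-dimensional in the sense of Kimura and O'Sullivan. This is known for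
  all varieties dominated by products of curves. It implies that the Frobenius endomorphism of `Z`
  satisfies, as a correspondence modulo rational equivalence, a polynomial equation with the same
  roots as on the cohomology; only this is used.

**For all `m ≥ 1` and `a ≤ 0` the groups `H^i(A × Z, ℤ(m))` vanish for all `i ≤ a` if and only if
for all `k` with `0 ≤ k ≤ dim A`, `k < m`, the groups `H^i(Z, ℤ(m - k))` vanish for all `i ≤ a - 2
k`** (`BSReduces`). For `a = 0` the first statement is question Q1 for the weight `m` and the
scheme `A × Z`: it says that the hypercohomology of `ℤ(m)` on `A × Z` vanishes in the degrees in
which the complex should be acyclic. So question Q1 in weight `m` for `A × Z` follows from (and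
contains) question Q1 in weight `m` for `Z`, together with the vanishing for `Z` in the lower
weights `m - k` and only in the degrees `i ≤ - 2 k`; question Q1 for `A × Z` and all weights is
equivalent to question Q1 for `Z` and all weights. No case of the conjectures of Tate, Beilinson,
Soulé and Parshin is assumed.

What is used of `A` are known theorems (`IsAbelian`): `H(A)` is generated by `H^1`, Frobenius is
diagonalizable on `H^1` (Weil), the theorem of Tate on divisors, and the nilpotence of
homologically trivial correspondences (Kimura). The motivic cohomology groups `H^i(X, ℚ(m))`, for
`X = Z` and `X = A × Z`, are the groups of bidegree `(i, m)` of a theory which is modelled by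
`RelData`, with the formal properties in `IsTheory`: degrees, products with classes on `A`,
push-forward to `Z`, the projection formula, the operation of the correspondences of `A` and of
the Frobenius endomorphism of `Z`. The Frobenius endomorphism of `X` is the multiplication by `Q ^
m` on `H^i(X, ℚ(m))` (`IsPure`). The groups `H^i(X, ℤ(m))` are modelled by `MotivicData` and
`IsMotivic`: their tensor products with `ℚ` are the groups `H^i(X, ℚ(m))`; they are torsion-free
for `i ≤ 0`, `m ≥ 1` by the theorem of Beilinson-Lichtenbaum (Voevodsky, Rost) and the one of
Geisser and Levine; and the groups of weight zero and of negative weights are known.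

Examples, for `s = 1` and ordinary `π i`. All `ρ` of even weight `2 v` with slopes between `v - 1
/ √2` and `v + 1 / √2` are good, and all `ρ` of any weight `w` with slopes between `(w - 1) / 2`
and `(w + 1) / 2`. In general all `ρ` of weight `2 v` are good whose degree over `ℚ` is more than
`2 ∑ (s - v) ^ 2`, the sum over the slopes `s` of all conjugates. The conditions of this kind do
not exclude any relation between `A` and the other factor: `ℚ(ρ)` may be contained in a field `F
i`, or in its Galois closure.

Relation to other results. The criterion for slopes is the one of `SmallSlopeDeviation`
(MP_0f183b_ag, helper70), where it is applied to the Tate conjecture; helper64 has the theorem for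
the rational groups (MP_27fd67_ag). New here are the groups with integral coefficients and the
weights and degrees of the question (degrees at most `a - 2 k` in the weight `m - k`).

The proof. A multiplicative relation between `ρ`, a power of `q` and a product of conjugates of
the `π i` gives, for each automorphism `σ` of a Galois closure, the linear relation `s (σ ρ) - w /
2 = ∑ x, n x (s (σ x) - 1 / 2)` between slopes, up to signs, where the sum is over one embedding
`x` of each conjugate pair and `n x` is the difference of the multiplicities of `x` and of its
conjugate. The second moments of the slopes are an invariant form on the odd functions; all its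
compositions with rational functionals are rational invariant forms, and so the slopes at
different pairs are uncorrelated, by Schur's lemma. Hence `d (ρ) = ∑ x, (n x) ^ 2 d (π x)`. If the
weight of `ρ` is even, so is the sum of all multiplicities, and a single `n x = ± 1` is
impossible. So all `n x` are zero (`noRel_good`, by helper70). It follows that the correspondence
on `A` given by the sum of the products of dual classes of divisor products acts as the identity
on the motivic cohomology of `A × Z`: the Frobenius endomorphism of `A × Z` is the multiplication
by `Q ^ j`, so that the Frobenius endomorphism of `A` satisfies a power of the polynomial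
reciprocal to that of the Frobenius endomorphism of `Z`; this polynomial is prime to the one whose
value on `H(A)` lies in the part generated by divisors, and the difference of the two
correspondences is nilpotent (helper64). So the rational motivic cohomology of `A × Z` is the
direct sum of the products of finitely many products of divisors on `A` with that of `Z`; in the
degrees at most zero a group with integral coefficients is zero if and only if the rational group
is zero. (The idea to play the eigenvalues of Frobenius off against nilpotence is due to Soulé,
Geisser and Kahn.)
-/

set_option autoImplicit false

namespace Pool.Agent.Results.MP_e2821c_ag.SmallSlopeDeviation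

open NumberField Module Polynomial Pool.Agent.Y137.MV Pool.Agent.Y137.SL Pool.Agent.Y1.CT
  Pool.Agent.Q70.SQ Pool.Agent.Q64.P Pool.Agent.Q306.FG

/-- **Question Q1 for `A × Z` in weight `m` is question Q1 for `Z` in weight `m` and the vanishing
for `Z` in the weights `m - k` and degrees `i ≤ - 2 k`**, for the abelian varieties `A` over
finite fields with absolutely irreducible, unrelated CM fields and no supersingular part, and
all `Z` each of whose Frobenius eigenvalues is unrelated to these fields or has small mean
square slope deviation. -/
theorem result :
    (∀ (p : ℕ) [Fact p.Prime] (a : ℕ) (I : Type) [Fintype I] (F : I → Type)
      [∀ i, Field (F i)] [∀ i, NumberField (F i)] [∀ i, IsCMField (F i)] (π : ∀ i, F i)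
      (f : I → ℤ[X]), 0 < a →
      (∀ i, π i * IsCMField.complexConj (F i) (π i) = (p : F i) ^ a) →
      (∀ i, OddAbsolutelyIrreducible (F i)) →
      (∀ i i', i ≠ i' → Pool.Agent.Y137.MV.Unrelated (F i) (F i')) →
      (∀ i, HasOtherSlope p a (π i)) → (∀ i, IsPolyOf (π i) (f i)) →
      BSReduces (GoodRoots p a π) (p ^ a) f) ∧
    (∀ (p : ℕ) [Fact p.Prime] (a : ℕ) (F : Type) [Field F] [NumberField F] (π : F),
      IsOrdinary p a π → weilDeviation p a π = (a * Real.log p) ^ 2 / 4) := by
  refine ⟨?_, ?_⟩
  · intro p _ a I _ F _ _ _ π f ha hw habs hun hns hf
    exact bsReduces (Nat.one_lt_pow ha.ne' (Fact.out : p.Prime).one_lt)
      (good_small ha hw habs hun hns f hf)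
  · intro p _ a F _ _ π h
    exact weilDeviation_ordinary h

end Pool.Agent.Results.MP_e2821c_ag.SmallSlopeDeviation
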